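import Pool.Agent.Lib.MP_bb1fdc_al.Fn.Main

/-!
# The order of the subsets of `ℕ` modulo finite sets embeds into the LEF growth types

For every function `ω` with limit infinity there are 2-generated residually finite groups `Γ A`,
`A ⊆ ℕ`, whose LEF growth lies between `2 ^ (n / 3)` and `2 ^ ((ω n + 80) n)`, such that the LEF
growth of `Γ A` is at most the LEF growth of `Γ B` (in the order of the problem) exactly if
`A \ B` is finite.  In particular there is a continuum of pairwise non-isomorphic such groups no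
two of which have comparable LEF growth.
-/

namespace Pool.Agent.Results.MP_bb1fdc_al.LefOrder

open Pool.Agent.Lib.MP_bb1fdc_al Filter

theorem result (ω : ℕ → ℕ) (hω : Tendsto ω atTop atTop) :
    ∃ (Γ : Set ℕ → Type) (_ : ∀ A, Group (Γ A)) (t a : ∀ A, Γ A),
      (∀ A, FinGen {t A, a A} ∧ IsResFin (Γ A) ∧ IsLEF (Γ A)) ∧
      (∀ A n, 1 ≤ n → 2 ^ n ≤ lefGrowth {t A, a A} (3 * n) ∧
        lefGrowth {t A, a A} n ≤ 2 ^ ((ω n + 80) * n)) ∧
      (∀ n, 1 ≤ n → lefGrowth {t ∅, a ∅} n ≤ 2 ^ (80 * n)) ∧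
      (∀ A B, Prec (lefGrowth {t A, a A}) (lefGrowth {t B, a B}) ↔ (A \ B).Finite) ∧
      (∀ (A B : Set ℕ) (S : Set (Γ A)) (T : Set (Γ B)), FinGen S → FinGen T →
        (Prec (lefGrowth S) (lefGrowth T) → (A \ B).Finite) ∧
        ((∃ C : ℕ, ∀ n, 1 ≤ n → lefGrowth S n ≤ lefGrowth T (C * n)) ↔ (A \ B).Finite)) ∧
      (∃ U : Set (Set ℕ), Cardinal.mk U = Cardinal.continuum ∧
        ∀ A ∈ U, ∀ B ∈ U, A ≠ B → (A \ B).Infinite ∧ IsEmpty (Γ A ≃* Γ B)) :=
  Fn.main ω hω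

end Pool.Agent.Results.MP_bb1fdc_al.LefOrder
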